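import Pool.Agent.Helper74.DI.St

/-! Project DI, module NUM. -/

set_option autoImplicit false

namespace Pool.Agent.Helper39.DI

open Pool.Agent.Helper74 Pool.Agent.Helper74.DI

theorem hNUM (hGRO : StGRO) (hDIV : StDIV) : StNUM := by
  intro w hw
  constructor
  · intro h
    have hb := hGRO w (true, 1, 0) 1 (by simp) (by simp)
    rw [mul_one] at hb
    obtain ⟨h1, h2⟩ := hb
    have hp : (0 : ℤ) < 2 ^ no w := by positivity
    have hp1 : (1 : ℤ) ≤ 2 ^ no w := by omega
    have e4 : (2 : ℤ) ^ (no w + 2) = 4 * 2 ^ no w := by ring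
    have hP : (run w (true, 1, 0)).2.1 - 1 = 0 := by
      apply hDIV (no w + 2)
      · intro m hm1 hm2
        exact (h m hm1 (by omega)).1
      · rw [e4, abs_lt]
        rw [abs_le] at h1
        constructor
        · linarith [h1.1]
        · linarith [h1.2]
    have hQ : (run w (true, 1, 0)).2.2 = 0 := by
      apply hDIV (no w + 2)
      · intro m hm1 hm2
        exact (h m hm1 (by omega)).2
      · rw [e4]
        linarith
    exact Prod.ext (by simpa using sub_eq_zero.1 hP) (by simpa using hQ)
  · intro h m _ _
    rw [h]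
    simp

end Pool.Agent.Helper39.DI

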